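import Pool.Agent.H19.SYA.TA

/-!
Symplectic torus actions on affine four-space (MP_51eb24_ag): row CHG of the board `sya_modules`,
generation modulo `g` by killed elements, `H` and `z`.
-/

set_option autoImplicit false

namespace Pool.Agent.H54.SYA

open MvPolynomial Pool.Agent.H2.ST Pool.Agent.H15.TG Pool.Agent.H19.SYA

/-! ### Derivations modulo `g` -/

section der

variable {k R : Type} [Field k] [CommRing R] [Algebra k R] (D : Derivation k R R) {g : R}

theorem iter_dvd (hD : ∀ x, g ∣ x → g ∣ D x) (n : ℕ) {x : R} (h : g ∣ x) : g ∣ D^[n] x := by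
  induction n with
  | zero => exact h
  | succ n ih => rw [Function.iterate_succ_apply']; exact hD _ ih

theorem iter_killed (hD : ∀ x, g ∣ x → g ∣ D x) {c : R} (hc : g ∣ D c) (x : R) (n : ℕ) :
    g ∣ D^[n] (c * x) - c * D^[n] x := by
  induction n with
  | zero => simp
  | succ n ih =>
    rw [Function.iterate_succ_apply', Function.iterate_succ_apply']
    have h1 := hD _ ih
    rw [map_sub, Derivation.leibniz, smul_eq_mul, smul_eq_mul] at h1
    have h2 : D (D^[n] (c * x)) - c * D (D^[n] x) =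
        (D (D^[n] (c * x)) - (c * D (D^[n] x) + D^[n] x * D c)) + D^[n] x * D c := by ring
    rw [h2]
    exact dvd_add h1 (hc.mul_left _)

theorem iter_sub (x y : R) (n : ℕ) : D^[n] (x - y) = D^[n] x - D^[n] y := by
  induction n with
  | zero => rfl
  | succ n ih => rw [Function.iterate_succ_apply', Function.iterate_succ_apply',
      Function.iterate_succ_apply', ih, map_sub]

theorem iter_pow (hD : ∀ x, g ∣ x → g ∣ D x) {s ρ : R} (hs : g ∣ D s - ρ) (hρ : g ∣ D ρ)
    (m : ℕ) : g ∣ D^[m] (s ^ m) - (m.factorial : R) * ρ ^ m := by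
  induction m with
  | zero => simp
  | succ m ih =>
    rw [Function.iterate_succ_apply, Derivation.leibniz_pow, Nat.add_sub_cancel, smul_eq_mul,
      nsmul_eq_mul]
    have h1 : g ∣ D^[m] (((m + 1 : ℕ) : R) * (s ^ m * D s)) -
        D^[m] ((((m + 1 : ℕ) : R) * ρ) * s ^ m) := by
      rw [← iter_sub]
      apply iter_dvd D hD
      have h2 : ((m + 1 : ℕ) : R) * (s ^ m * D s) - (((m + 1 : ℕ) : R) * ρ) * s ^ m =
          (D s - ρ) * (((m + 1 : ℕ) : R) * s ^ m) := by ring
      rw [h2]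
      exact hs.mul_right _
    have h3 : g ∣ D (((m + 1 : ℕ) : R) * ρ) := by
      rw [← nsmul_eq_mul, map_nsmul, nsmul_eq_mul]
      exact hρ.mul_left _
    have h4 := iter_killed D hD h3 (s ^ m) m
    have h5 : D^[m] (((m + 1 : ℕ) : R) * (s ^ m * D s)) -
        ((m + 1).factorial : R) * ρ ^ (m + 1) =
        (D^[m] (((m + 1 : ℕ) : R) * (s ^ m * D s)) - D^[m] ((((m + 1 : ℕ) : R) * ρ) * s ^ m)) +
        (D^[m] ((((m + 1 : ℕ) : R) * ρ) * s ^ m) - (((m + 1 : ℕ) : R) * ρ) * D^[m] (s ^ m)) +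
        (((m + 1 : ℕ) : R) * ρ) * (D^[m] (s ^ m) - (m.factorial : R) * ρ ^ m) := by
      rw [Nat.factorial_succ, Nat.cast_mul]
      ring
    rw [h5]
    exact dvd_add (dvd_add h1 h4) (ih.mul_left _)

theorem dvd_fac_pow (_ : ∀ x, g ∣ x → g ∣ D x) {ρ : R} (hρ : g ∣ D ρ) (m : ℕ) :
    g ∣ D ((m.factorial : R) * ρ ^ m) := by
  rw [← nsmul_eq_mul, map_nsmul, nsmul_eq_mul, Derivation.leibniz_pow, smul_eq_mul, nsmul_eq_mul]
  exact ((hρ.mul_left _).mul_left _).mul_left _

/-- one step of the reduction -/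
theorem red (hD : ∀ x, g ∣ x → g ∣ D x) {s ρ : R} (hs : g ∣ D s - ρ) (hρ : g ∣ D ρ) (G : R)
    (m : ℕ) (hG : g ∣ D (D^[m] G)) :
    g ∣ D^[m] (((m.factorial : R) * ρ ^ m) * G - D^[m] G * s ^ m) := by
  rw [iter_sub]
  have h1 := iter_killed D hD (dvd_fac_pow D hD hρ m) G m
  have h2 := iter_killed D hD hG (s ^ m) m
  have h3 := iter_pow D hD hs hρ m
  have h4 : D^[m] (((m.factorial : R) * ρ ^ m) * G) - D^[m] (D^[m] G * s ^ m) =
      (D^[m] (((m.factorial : R) * ρ ^ m) * G) - ((m.factorial : R) * ρ ^ m) * D^[m] G) -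
      (D^[m] (D^[m] G * s ^ m) - D^[m] G * D^[m] (s ^ m)) -
      D^[m] G * (D^[m] (s ^ m) - (m.factorial : R) * ρ ^ m) := by ring
  rw [h4]
  exact dvd_sub (dvd_sub h1 h2) (h3.mul_left _)

end der

/-! ### Killed elements -/

section kil

variable {k : Type} [Field k] {m : ℕ}

theorem dv_mul {g h a b : Pol k m} (ha : g ∣ br h a) (hb : g ∣ br h b) : g ∣ br h (a * b) := by
  rw [br_mul]; exact dvd_add (hb.mul_left _) (ha.mul_left _)

theorem dv_sub {g h a b : Pol k m} (ha : g ∣ br h a) (hb : g ∣ br h b) : g ∣ br h (a - b) := by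
  rw [br_sub]; exact dvd_sub ha hb

theorem dv_pow {g h a : Pol k m} (ha : g ∣ br h a) (n : ℕ) : g ∣ br h (a ^ n) := by
  rw [br_pow]; exact ha.mul_left _

theorem dv_C (g h : Pol k m) (c : k) : g ∣ br h (C c) := by
  rw [br_C]; exact dvd_zero _

theorem cast_eq_C (n : ℕ) : ((n : ℕ) : Pol k m) = C (n : k) := by simp

end kil

/-! ### The span -/

section spn

variable {k : Type} [Field k] {W : ℤ → Submodule k (Pol k 2)} {H g f z : Pol k 2} {r : ℤ}

/-- combinations of killed homogeneous elements times monomials in `H, z`, modulo `g` -/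
noncomputable def TT (W : ℤ → Submodule k (Pol k 2)) (H g f z : Pol k 2) (r n : ℤ) : Submodule k (Pol k 2) :=
  Submodule.span k ({x | g ∣ x} ∪ {x | ∃ (c : Pol k 2) (a b : ℕ), c ∈ W (n - b * r) ∧
    g ∣ br g c ∧ g ∣ br f c ∧ x = c * H ^ a * z ^ b})

theorem TT_dvd (n : ℤ) {x : Pol k 2} (h : g ∣ x) : x ∈ TT W H g f z r n :=
  Submodule.subset_span (Or.inl h)

theorem TT_mon (n : ℤ) {c : Pol k 2} (a b : ℕ) (hc : c ∈ W (n - b * r)) (h1 : g ∣ br g c)
    (h2 : g ∣ br f c) : c * H ^ a * z ^ b ∈ TT W H g f z r n :=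
  Submodule.subset_span (Or.inr ⟨c, a, b, hc, h1, h2, rfl⟩)

theorem TT_mul (hW : Gr W) {n l : ℤ} {c : Pol k 2} (a b : ℕ) (hc : c ∈ W l) (h1 : g ∣ br g c)
    (h2 : g ∣ br f c) {x : Pol k 2} (hx : x ∈ TT W H g f z r n) :
    c * H ^ a * z ^ b * x ∈ TT W H g f z r (n + l + b * r) := by
  unfold TT at hx
  induction hx using Submodule.span_induction with
  | mem x h =>
    rcases h with h | ⟨c', a', b', hc', h1', h2', rfl⟩
    · exact TT_dvd _ (h.mul_left _)
    · have e : c * H ^ a * z ^ b * (c' * H ^ a' * z ^ b') =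
          (c * c') * H ^ (a + a') * z ^ (b + b') := by ring
      rw [e]
      refine TT_mon _ _ _ ?_ (dv_mul h1 h1') (dv_mul h2 h2')
      have e2 : n + l + b * r - ((b + b' : ℕ) : ℤ) * r = l + (n - b' * r) := by push_cast; ring
      rw [e2]
      exact hW.mul _ _ _ _ hc hc'
  | zero => rw [mul_zero]; exact Submodule.zero_mem _
  | add x y _ _ hx hy => rw [mul_add]; exact Submodule.add_mem _ hx hy
  | smul t x _ hx => rw [mul_smul_comm]; exact Submodule.smul_mem _ _ hx

theorem TT_fin {n : ℤ} {x : Pol k 2} (hx : x ∈ TT W H g f z r n) :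
    ∃ D : ℕ, ∀ D' : ℕ, D ≤ D' → ∃ u : Fin D' → Fin D' → Pol k 2,
      (∀ a b : Fin D', u a b ∈ W (n - (b : ℕ) * r) ∧ g ∣ br g (u a b) ∧ g ∣ br f (u a b)) ∧
      g ∣ x - ∑ a, ∑ b, u a b * H ^ (a : ℕ) * z ^ (b : ℕ) := by
  unfold TT at hx
  induction hx using Submodule.span_induction with
  | mem x h =>
    rcases h with h | ⟨c, a, b, hc, h1, h2, rfl⟩
    · refine ⟨0, fun D' _ => ⟨fun _ _ => 0, fun a b => ⟨Submodule.zero_mem _, ?_, ?_⟩, ?_⟩⟩
      · rw [br_zero]; exact dvd_zero _
      · rw [br_zero]; exact dvd_zero _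
      · simpa using h
    · refine ⟨a + b + 1, fun D' hD' =>
        ⟨fun i j => if (i : ℕ) = a ∧ (j : ℕ) = b then c else 0, fun i j => ?_, ?_⟩⟩
      · dsimp only
        split_ifs with hij
        · rw [hij.2]; exact ⟨hc, h1, h2⟩
        · refine ⟨Submodule.zero_mem _, ?_, ?_⟩
          · rw [br_zero]; exact dvd_zero _
          · rw [br_zero]; exact dvd_zero _
      · rw [Finset.sum_eq_single (⟨a, by omega⟩ : Fin D'),
          Finset.sum_eq_single (⟨b, by omega⟩ : Fin D')]
        · simp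
        · intro j _ hj
          dsimp only
          rw [if_neg, zero_mul, zero_mul]
          rintro ⟨_, h⟩
          exact hj (Fin.ext h)
        · intro h; exact absurd (Finset.mem_univ _) h
        · intro i _ hi
          refine Finset.sum_eq_zero fun j _ => ?_
          dsimp only
          rw [if_neg, zero_mul, zero_mul]
          rintro ⟨h, _⟩
          exact hi (Fin.ext h)
        · intro h; exact absurd (Finset.mem_univ _) h
  | zero =>
    refine ⟨0, fun D' _ => ⟨fun _ _ => 0, fun a b => ⟨Submodule.zero_mem _, ?_, ?_⟩, ?_⟩⟩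
    · rw [br_zero]; exact dvd_zero _
    · rw [br_zero]; exact dvd_zero _
    · simp
  | add x y _ _ hx hy =>
    obtain ⟨D1, h1⟩ := hx
    obtain ⟨D2, h2⟩ := hy
    refine ⟨max D1 D2, fun D' hD' => ?_⟩
    obtain ⟨u1, a1, b1⟩ := h1 D' (le_trans (le_max_left _ _) hD')
    obtain ⟨u2, a2, b2⟩ := h2 D' (le_trans (le_max_right _ _) hD')
    refine ⟨fun i j => u1 i j + u2 i j, fun i j => ⟨Submodule.add_mem _ (a1 i j).1 (a2 i j).1,
      ?_, ?_⟩, ?_⟩
    · rw [br_add]; exact dvd_add (a1 i j).2.1 (a2 i j).2.1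
    · rw [br_add]; exact dvd_add (a1 i j).2.2 (a2 i j).2.2
    · have e : x + y - ∑ a : Fin D', ∑ b : Fin D', (u1 a b + u2 a b) * H ^ (a : ℕ) * z ^ (b : ℕ) =
          (x - ∑ a : Fin D', ∑ b : Fin D', u1 a b * H ^ (a : ℕ) * z ^ (b : ℕ)) +
          (y - ∑ a : Fin D', ∑ b : Fin D', u2 a b * H ^ (a : ℕ) * z ^ (b : ℕ)) := by
        simp only [add_mul, Finset.sum_add_distrib]
        ring
      rw [e]
      exact dvd_add b1 b2
  | smul t x _ hx =>
    obtain ⟨D1, h1⟩ := hx
    refine ⟨D1, fun D' hD' => ?_⟩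
    obtain ⟨u1, a1, b1⟩ := h1 D' hD'
    refine ⟨fun i j => t • u1 i j, fun i j => ⟨Submodule.smul_mem _ _ (a1 i j).1, ?_, ?_⟩, ?_⟩
    · rw [br_smul, smul_eq_C_mul]; exact (a1 i j).2.1.mul_left _
    · rw [br_smul, smul_eq_C_mul]; exact (a1 i j).2.2.mul_left _
    · have e : t • x - ∑ a : Fin D', ∑ b : Fin D', (t • u1 a b) * H ^ (a : ℕ) * z ^ (b : ℕ) =
          t • (x - ∑ a : Fin D', ∑ b : Fin D', u1 a b * H ^ (a : ℕ) * z ^ (b : ℕ)) := by
        simp only [smul_mul_assoc, smul_sub, Finset.smul_sum]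
      rw [e, smul_eq_C_mul]
      exact b1.mul_left _

end spn

/-! ### Representable elements -/

section rep

variable {k : Type} [Field k] {W : ℤ → Submodule k (Pol k 2)} {H g f z : Pol k 2} {r ω : ℤ}

/-- representable after multiplication by a power of `f {g, z}` -/
def Rp (W : ℤ → Submodule k (Pol k 2)) (H g f z : Pol k 2) (r ω n : ℤ) (x : Pol k 2) : Prop :=
  ∃ N : ℕ, (f * br g z) ^ N * x ∈ TT W H g f z r (n + N * ω)

/-- hypotheses on `f {g, z}` -/
structure Hp (W : ℤ → Submodule k (Pol k 2)) (g f z : Pol k 2) (ω : ℤ) : Prop where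
  gr : Gr W
  mem : f * br g z ∈ W ω
  kg : g ∣ br g (f * br g z)
  kf : g ∣ br f (f * br g z)

theorem Rp_up (h : Hp W g f z ω) {n : ℤ} {x : Pol k 2} {N : ℕ}
    (hx : (f * br g z) ^ N * x ∈ TT W H g f z r (n + N * ω)) (M : ℕ) (hM : N ≤ M) :
    (f * br g z) ^ M * x ∈ TT W H g f z r (n + M * ω) := by
  obtain ⟨j, rfl⟩ := Nat.exists_eq_add_of_le hM
  induction j with
  | zero => exact hx
  | succ j ih =>
    have h1 := TT_mul h.gr 0 0 h.mem h.kg h.kf (ih (by omega))
    rw [pow_zero, pow_zero, mul_one, mul_one, Nat.cast_zero, zero_mul, add_zero] at h1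
    have e : (f * br g z) ^ (N + (j + 1)) * x =
        f * br g z * ((f * br g z) ^ (N + j) * x) := by ring
    have e2 : n + ((N + (j + 1) : ℕ) : ℤ) * ω = n + ((N + j : ℕ) : ℤ) * ω + ω := by
      push_cast; ring
    rw [e, e2]
    exact h1

theorem Rp_add (h : Hp W g f z ω) {n : ℤ} {x x' : Pol k 2} (hx : Rp W H g f z r ω n x)
    (hx' : Rp W H g f z r ω n x') : Rp W H g f z r ω n (x + x') := by
  obtain ⟨N, hN⟩ := hx
  obtain ⟨N', hN'⟩ := hx'
  refine ⟨max N N', ?_⟩
  rw [mul_add]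
  exact Submodule.add_mem _ (Rp_up h hN _ (le_max_left _ _)) (Rp_up h hN' _ (le_max_right _ _))

theorem Rp_smul {n : ℤ} {x : Pol k 2} (t : k) (hx : Rp W H g f z r ω n x) :
    Rp W H g f z r ω n (t • x) := by
  obtain ⟨N, hN⟩ := hx
  refine ⟨N, ?_⟩
  rw [mul_smul_comm]
  exact Submodule.smul_mem _ _ hN

theorem Rp_dvd {x : Pol k 2} (n : ℤ) (hx : g ∣ x) : Rp W H g f z r ω n x :=
  ⟨0, TT_dvd _ (hx.mul_left _)⟩

theorem Rp_kil {x : Pol k 2} {n : ℤ} (hx : x ∈ W n) (h1 : g ∣ br g x) (h2 : g ∣ br f x) :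
    Rp W H g f z r ω n x := by
  refine ⟨0, ?_⟩
  have h := TT_mon (W := W) (H := H) (z := z) (r := r) n 0 0 (c := x) (by simpa using hx) h1 h2
  simpa using h

theorem Rp_mul (h : Hp W g f z ω) {n l : ℤ} {c : Pol k 2} (a b : ℕ) (hc : c ∈ W l)
    (h1 : g ∣ br g c) (h2 : g ∣ br f c) {x : Pol k 2} (hx : Rp W H g f z r ω n x) :
    Rp W H g f z r ω (n + l + b * r) (c * H ^ a * z ^ b * x) := by
  obtain ⟨N, hN⟩ := hx
  refine ⟨N, ?_⟩
  have h3 := TT_mul h.gr a b hc h1 h2 hN
  have e : (f * br g z) ^ N * (c * H ^ a * z ^ b * x) =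
      c * H ^ a * z ^ b * ((f * br g z) ^ N * x) := by ring
  have e2 : n + l + b * r + N * ω = n + N * ω + l + b * r := by ring
  rw [e, e2]
  exact h3

theorem Rp_div {n : ℤ} {x : Pol k 2} (j : ℕ)
    (hx : Rp W H g f z r ω (n + j * ω) ((f * br g z) ^ j * x)) : Rp W H g f z r ω n x := by
  obtain ⟨N, hN⟩ := hx
  refine ⟨N + j, ?_⟩
  have e : (f * br g z) ^ (N + j) * x = (f * br g z) ^ N * ((f * br g z) ^ j * x) := by ring
  have e2 : n + ((N + j : ℕ) : ℤ) * ω = n + j * ω + N * ω := by push_cast; ring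
  rw [e, e2]
  exact hN

end rep

theorem iter_mem {k : Type} [Field k] {W : ℤ → Submodule k (Pol k 2)} (h : PGr W)
    {g G : Pol k 2} {α n : ℤ} (hg : g ∈ W α) (hG : G ∈ W n) (m : ℕ) :
    (br g)^[m] G ∈ W (n + m * α) := by
  induction m with
  | zero => simpa using hG
  | succ m ih =>
    rw [Function.iterate_succ_apply']
    have h1 := h.pbr _ _ _ _ hg ih
    have e : n + ((m + 1 : ℕ) : ℤ) * α = α + (n + m * α) := by push_cast; ring
    rw [e]
    exact h1

theorem pf_CHG : Pool.Agent.H19.SYA.T_CHG := by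
  intro k _ _ _ W H y w g f z α β r hy hp hz hfz _ hggz n F hF
  have hG : Gr W := hy.toGr
  have hfg : br f g = 0 := by rw [br_anti, hp.gf, neg_zero]
  have hDg : ∀ x, g ∣ x → g ∣ br g x := by
    rintro _ ⟨x, rfl⟩
    rw [br_mul, br_self, mul_zero, add_zero]
    exact dvd_mul_right _ _
  have hDf : ∀ x, g ∣ x → g ∣ br f x := by
    rintro _ ⟨x, rfl⟩
    rw [br_mul, hfg, mul_zero, add_zero]
    exact dvd_mul_right _ _
  have hcom : ∀ x, br f (br g x) = br g (br f x) := by
    intro x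
    rw [jac, hfg, zero_br, zero_add]
  have hrf : g ∣ br f (br g z) := by rw [hcom]; exact hDg _ hfz
  have hrm : br g z ∈ W (α + r) := hy.pbr _ _ _ _ hp.hg hz
  have hff : g ∣ br f f := by rw [br_self]; exact dvd_zero _
  have hgf : g ∣ br g f := by rw [hp.gf]; exact dvd_zero _
  have hH : Hp W g f z (β + α + r) :=
    ⟨hG, by rw [add_assoc]; exact hG.mul _ _ _ _ hp.hf hrm, dv_mul hgf hggz, dv_mul hff hrf⟩
  have hadg : (⇑(ad g) : Pol k 2 → Pol k 2) = br g := funext (ad_apply g)
  have hadf : (⇑(ad f) : Pol k 2 → Pol k 2) = br f := funext (ad_apply f)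
  have hcomi : ∀ (m : ℕ) (x : Pol k 2), g ∣ br f x → g ∣ br f ((br g)^[m] x) := by
    intro m x hx
    induction m with
    | zero => exact hx
    | succ m ih => rw [Function.iterate_succ_apply', hcom]; exact hDg _ ih
  have hfac : ∀ m : ℕ, ((m.factorial : ℕ) : k) ≠ 0 := fun m =>
    Nat.cast_ne_zero.2 (Nat.factorial_ne_zero m)
  have hone : (1 : Pol k 2) ∈ W 0 := hG.one
  have hC0 : ∀ c : k, (C c : Pol k 2) ∈ W 0 := fun c => algebraMap_mem_gr hG c
  -- first step
  have S1 : ∀ (m : ℕ) (n : ℤ) (G : Pol k 2), G ∈ W n → g ∣ br f G → g ∣ (br g)^[m] G →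
      Rp W H g f z r (β + α + r) n G := by
    intro m
    induction m with
    | zero => intro n G _ _ h; exact Rp_dvd _ h
    | succ m ih =>
      intro n G hGn hfG hm
      have hTm : (br g)^[m] G ∈ W (n + m * α) := iter_mem hy.toPGr hp.hg hGn m
      have hTg : g ∣ br g ((br g)^[m] G) := by
        rw [← Function.iterate_succ_apply' (br g) m G]; exact hm
      have hTf : g ∣ br f ((br g)^[m] G) := hcomi m G hfG
      have hred := red (ad g) (g := g) (s := z) (ρ := br g z) (by rw [hadg]; exact hDg)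
        (by rw [hadg, sub_self]; exact dvd_zero _) (by rw [hadg]; exact hggz) G m
        (by rw [hadg]; exact hTg)
      rw [hadg] at hred
      have hfr : (((m.factorial : ℕ) : Pol k 2) * br g z ^ m) ∈ W (m * (α + r)) := by
        rw [cast_eq_C]
        have h := hG.mul _ _ _ _ (hC0 (m.factorial : k)) (pow_mem_gr hG hrm m)
        rw [zero_add, nsmul_eq_mul] at h
        exact h
      have hzm : z ^ m ∈ W (m * r) := by
        have h := pow_mem_gr hG hz m
        rw [nsmul_eq_mul] at h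
        exact h
      have hG1m : (((m.factorial : ℕ) : Pol k 2) * br g z ^ m) * G -
          (br g)^[m] G * z ^ m ∈ W (n + m * (α + r)) := by
        apply Submodule.sub_mem
        · have h := hG.mul _ _ _ _ hfr hGn
          rw [add_comm] at h
          exact h
        · have h := hG.mul _ _ _ _ hTm hzm
          have e : n + m * α + m * r = n + m * (α + r) := by ring
          rw [e] at h
          exact h
      have hG1f : g ∣ br f ((((m.factorial : ℕ) : Pol k 2) * br g z ^ m) * G -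
          (br g)^[m] G * z ^ m) := by
        apply dv_sub
        · apply dv_mul _ hfG
          rw [cast_eq_C]
          exact dv_mul (dv_C _ _ _) (dv_pow hrf m)
        · exact dv_mul hTf (dv_pow hfz m)
      have hR1 := ih (n + m * (α + r)) _ hG1m hG1f hred
      have hR2 : Rp W H g f z r (β + α + r) (n + m * (α + r)) ((br g)^[m] G * z ^ m) := by
        have h := Rp_mul (H := H) (r := r) hH 0 m hone (by rw [br_one]; exact dvd_zero _)
          (by rw [br_one]; exact dvd_zero _) (Rp_kil (H := H) (r := r) (z := z) (ω := β + α + r)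
            hTm hTg hTf)
        have e : n + m * α + 0 + m * r = n + m * (α + r) := by ring
        rw [e] at h
        have e2 : 1 * H ^ 0 * z ^ m * (br g)^[m] G = (br g)^[m] G * z ^ m := by ring
        rw [e2] at h
        exact h
      have hR3 := Rp_add hH hR1 hR2
      rw [sub_add_cancel] at hR3
      have hfm : f ^ m ∈ W (m * β) := by
        have h := pow_mem_gr hG hp.hf m
        rw [nsmul_eq_mul] at h
        exact h
      have hR4 := Rp_mul hH 0 0 hfm (dv_pow hgf m) (dv_pow hff m) hR3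
      have hR5 := Rp_smul ((m.factorial : k))⁻¹ hR4
      apply Rp_div m
      have e3 : n + m * (α + r) + m * β + ((0 : ℕ) : ℤ) * r = n + m * (β + α + r) := by
        push_cast; ring
      have e4 : ((m.factorial : k))⁻¹ • (f ^ m * H ^ 0 * z ^ 0 *
          ((((m.factorial : ℕ) : Pol k 2) * br g z ^ m) * G)) = (f * br g z) ^ m * G := by
        have e5 : f ^ m * H ^ 0 * z ^ 0 * ((((m.factorial : ℕ) : Pol k 2) * br g z ^ m) * G) =
            C (m.factorial : k) * ((f * br g z) ^ m * G) := by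
          rw [cast_eq_C]; ring
        rw [e5, ← smul_eq_C_mul, smul_smul, inv_mul_cancel₀ (hfac m), one_smul]
      rw [e3, e4] at hR5
      exact hR5
  -- second step
  have hβ : ((β : ℤ) : k) ≠ 0 := Int.cast_ne_zero.2 (ne_of_gt hp.pb)
  have hfH : br f H = C (β : k) * f := by
    rw [hy.HE β f hp.hf, smul_eq_C_mul]
  have S2 : ∀ (m : ℕ) (n : ℤ) (F : Pol k 2), F ∈ W n → g ∣ (br f)^[m] F →
      Rp W H g f z r (β + α + r) n F := by
    intro m
    induction m with
    | zero => intro n F _ h; exact Rp_dvd _ h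
    | succ m ih =>
      intro n F hFn hm
      have hTm : (br f)^[m] F ∈ W (n + m * β) := iter_mem hy.toPGr hp.hf hFn m
      have hTf : g ∣ br f ((br f)^[m] F) := by
        rw [← Function.iterate_succ_apply' (br f) m F]; exact hm
      have hred := red (ad f) (g := g) (s := H) (ρ := C (β : k) * f) (by rw [hadf]; exact hDf)
        (by rw [hadf, hfH, sub_self]; exact dvd_zero _)
        (by rw [hadf]; exact dv_mul (dv_C _ _ _) hff) F m (by rw [hadf]; exact hTf)
      rw [hadf] at hred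
      obtain ⟨M, hM⟩ := hp.lg ((br f)^[m] F)
      have hR0 := S1 M _ _ hTm hTf (by rw [hM]; exact dvd_zero _)
      have hfr : (((m.factorial : ℕ) : Pol k 2) * (C (β : k) * f) ^ m) ∈ W (m * β) := by
        rw [cast_eq_C]
        have h0 : C (β : k) * f ∈ W β := by
          have h := hG.mul _ _ _ _ (hC0 (β : k)) hp.hf
          rw [zero_add] at h
          exact h
        have h := hG.mul _ _ _ _ (hC0 (m.factorial : k)) (pow_mem_gr hG h0 m)
        rw [zero_add, nsmul_eq_mul] at h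
        exact h
      have hHm : H ^ m ∈ W 0 := by
        have h := pow_mem_gr hG hy.H0 m
        rw [smul_zero] at h
        exact h
      have hG1m : (((m.factorial : ℕ) : Pol k 2) * (C (β : k) * f) ^ m) * F -
          (br f)^[m] F * H ^ m ∈ W (n + m * β) := by
        apply Submodule.sub_mem
        · have h := hG.mul _ _ _ _ hfr hFn
          rw [add_comm] at h
          exact h
        · have h := hG.mul _ _ _ _ hTm hHm
          rw [add_zero] at h
          exact h
      have hR1 := ih (n + m * β) _ hG1m hred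
      have hR2 : Rp W H g f z r (β + α + r) (n + m * β) ((br f)^[m] F * H ^ m) := by
        have h := Rp_mul (H := H) (r := r) hH m 0 hone (by rw [br_one]; exact dvd_zero _)
          (by rw [br_one]; exact dvd_zero _) hR0
        have e : n + m * β + 0 + ((0 : ℕ) : ℤ) * r = n + m * β := by push_cast; ring
        rw [e] at h
        have e2 : 1 * H ^ m * z ^ 0 * (br f)^[m] F = (br f)^[m] F * H ^ m := by ring
        rw [e2] at h
        exact h
      have hR3 := Rp_add hH hR1 hR2
      rw [sub_add_cancel] at hR3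
      have hrm' : br g z ^ m ∈ W (m * (α + r)) := by
        have h := pow_mem_gr hG hrm m
        rw [nsmul_eq_mul] at h
        exact h
      have hR4 := Rp_mul hH 0 0 hrm' (dv_pow hggz m) (dv_pow hrf m) hR3
      have hR5 := Rp_smul ((m.factorial : k) * (β : k) ^ m)⁻¹ hR4
      apply Rp_div m
      have e3 : n + m * β + m * (α + r) + ((0 : ℕ) : ℤ) * r = n + m * (β + α + r) := by
        push_cast; ring
      have e4 : ((m.factorial : k) * (β : k) ^ m)⁻¹ • (br g z ^ m * H ^ 0 * z ^ 0 *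
          ((((m.factorial : ℕ) : Pol k 2) * (C (β : k) * f) ^ m) * F)) =
          (f * br g z) ^ m * F := by
        have e5 : br g z ^ m * H ^ 0 * z ^ 0 *
            ((((m.factorial : ℕ) : Pol k 2) * (C (β : k) * f) ^ m) * F) =
            C ((m.factorial : k) * (β : k) ^ m) * ((f * br g z) ^ m * F) := by
          rw [cast_eq_C, C_mul, C_pow]; ring
        rw [e5, ← smul_eq_C_mul, smul_smul,
          inv_mul_cancel₀ (mul_ne_zero (hfac m) (pow_ne_zero _ hβ)), one_smul]
      rw [e3, e4] at hR5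
      exact hR5
  obtain ⟨M, hM⟩ := hp.lf F
  obtain ⟨N, hN⟩ := S2 M n F hF (by rw [hM]; exact dvd_zero _)
  obtain ⟨D, hD⟩ := TT_fin hN
  obtain ⟨u, hu1, hu2⟩ := hD D le_rfl
  exact ⟨N, D, u, hu1, hu2⟩

end Pool.Agent.H54.SYA
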