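import Pool.Agent.H19.SYA.TA

/-!
Symplectic torus actions on affine four-space (MP_51eb24_ag): row DVP of the board `sya_modules`,
division of the slice by primes.
-/

set_option autoImplicit false

namespace Pool.Agent.H54.SYA

open MvPolynomial Pool.Agent.H2.ST Pool.Agent.H15.TG Pool.Agent.H19.SYA

section cp

variable {k : Type} [Field k] {W : ℤ → Submodule k (Pol k 2)}

theorem cmp_dvd (h : Gr W) {p x : Pol k 2} {α : ℤ} (hp : p ∈ W α) (hx : p ∣ x) (a : ℤ) :
    p ∣ cmp h x a := by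
  obtain ⟨z, rfl⟩ := hx
  have h1 := cmp_mul_of_mem h hp z (a - α)
  rw [sub_add_cancel, mul_comm z p] at h1
  rw [h1]
  exact dvd_mul_left _ _

theorem ai_primes (hAI2 : T_AI2) (hAI3 : T_AI3) (h : Gr W) {p q : Pol k 2} {α β : ℤ}
    (hp : Prime p) (hpm : p ∈ W α) (hqm : q ∈ W β) (hβ : 0 < β) (hnd : ¬ p ∣ q) :
    AlgebraicIndependent k ![p, q] := by
  have hJ : (Ideal.span {p} : Ideal (Pol k 2)).IsPrime := (Ideal.span_singleton_prime hp.ne_zero).2 hp
  have h1 : Imod k (Ideal.span {p} : Ideal (Pol k 2)) (fun i : Empty => (i.elim : Pol k 2)) := by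
    intro P hP
    rw [MvPolynomial.eq_C_of_isEmpty P, MvPolynomial.aeval_C] at hP
    by_contra hne
    have hc : coeff 0 P ≠ 0 := by
      intro h0
      apply hne
      rw [MvPolynomial.eq_C_of_isEmpty P, h0, C_0]
    exact hJ.ne_top (Ideal.eq_top_of_isUnit_mem _ hP ((isUnit_iff_ne_zero.2 hc).map (algebraMap k _)))
  have h2 := hAI3 k (Pol k 2) ℤ Empty Unit W h (Ideal.span {p}) (fun i : Empty => i.elim)
    (fun _ => q) (fun _ => β) hJ (fun x hx a => by
      rw [Ideal.mem_span_singleton] at hx ⊢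
      exact cmp_dvd h hpm hx a) (fun i => i.elim) (fun _ => hqm)
    (fun _ hq => hnd (Ideal.mem_span_singleton.1 hq))
    ((linearIndependent_unique_iff (v := fun _ : Unit => β)).2 (ne_of_gt hβ)) h1
  have h3 := hAI2 k (Pol k 2) (Empty ⊕ Unit) p _ hp h2
  have h4 := h3.comp ![Sum.inr (), Sum.inl (Sum.inr ())] (by
    intro a b hab
    fin_cases a <;> fin_cases b <;> simp_all)
  convert h4 using 1
  funext i
  fin_cases i <;> rfl

theorem cs_pos {K : Subalgebra k (Pol k 2)} {n : ℕ} {g : Fin (n + 2) → Pol k 2}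
    {e ω : Fin (n + 2) → ℕ} {l : ℕ} (hK : CS W K n g e ω l) (i : Fin (n + 2)) : 0 < ω i := by
  have h1 := hK.eo i
  have h2 := hK.lp
  rcases Nat.eq_zero_or_pos (ω i) with h0 | h0
  · rw [h0, mul_zero] at h1; omega
  · exact h0

theorem cp_of_cs (hAI2 : T_AI2) (hAI3 : T_AI3) (h : Gr W) {K : Subalgebra k (Pol k 2)} {n : ℕ}
    {g : Fin (n + 2) → Pol k 2} {e ω : Fin (n + 2) → ℕ} {l : ℕ} (hK : CS W K n g e ω l) :
    Cp W (g 0) (g 1) (ω 0) (ω 1) where
  hp := hK.gw 0
  hq := hK.gw 1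
  pa := by exact_mod_cast cs_pos hK 0
  pb := by exact_mod_cast cs_pos hK 1
  lp := hK.ln _ (hK.gK 0)
  lq := hK.ln _ (hK.gK 1)
  pq := hK.cm _ (hK.gK 0) _ (hK.gK 1)
  ai := ai_primes hAI2 hAI3 h (hK.pg 0) (hK.gw 0) (hK.gw 1) (by exact_mod_cast cs_pos hK 1)
    (hK.na 0 1 (by simp))

end cp

/-- splitting off the prime factors that do not divide `D` -/
theorem split_bad {k : Type} [Field k] (D : Pol k 2) (f : Pol k 2) : f ≠ 0 →
    ∃ (f1 : Pol k 2) (m : Multiset (Pol k 2)) (M : ℕ), f = f1 * m.prod ∧ f1 ∣ D ^ M ∧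
      ∀ h ∈ m, Prime h ∧ ¬ h ∣ D := by
  induction f using UniqueFactorizationMonoid.induction_on_prime with
  | h₁ => intro h; exact absurd rfl h
  | h₂ u hu =>
    intro _
    exact ⟨u, 0, 0, by simp, hu.dvd, by simp⟩
  | h₃ a p ha hp ih =>
    intro _
    obtain ⟨f1, m, M, h1, h2, h3⟩ := ih ha
    by_cases hpD : p ∣ D
    · refine ⟨p * f1, m, M + 1, by rw [h1, mul_assoc], ?_, h3⟩
      rw [pow_succ, mul_comm (D ^ M)]
      exact mul_dvd_mul hpD h2
    · refine ⟨f1, p ::ₘ m, M, ?_, h2, ?_⟩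
      · rw [Multiset.prod_cons, h1]; ring
      · intro h hh
        rcases Multiset.mem_cons.1 hh with rfl | hh
        · exact ⟨hp, hpD⟩
        · exact h3 h hh

theorem pf_DVP (hSL0 : T_SL0) (hFAC : T_FAC) (hAI2 : T_AI2) (hAI3 : T_AI3) : T_DVP := by
  intro k _ _ _ W H y w K n g e ω l D d hy hK hDK hDm hD0 hg0 hgi hSur
  have hG : Gr W := hy.toGr
  have hcp := cp_of_cs hAI2 hAI3 hG hK
  obtain ⟨s0, n0, hs0⟩ := hSL0 k W H y w (g 0) (g 1) (ω 0) (ω 1) hy hcp
  have hfac : ∀ (a : ℤ) (f g : Pol k 2), f * g ∈ W a → f * g ≠ 0 →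
      ∃ b c : ℤ, f ∈ W b ∧ g ∈ W c ∧ b + c = a := fun a f g h1 h2 =>
    hFAC k (Pol k 2) ℤ W hG a f g h1 h2
  have hcent : ∀ x, br (g 0) x = 0 → br (g 1) x = 0 → x ∈ K :=
    hK.mx (g 0) (g 1) (ω 0) (ω 1) (hK.gK 0) (hK.gK 1) hcp
  -- the final step
  have fin : ∀ (f1 S : Pol k 2) (r : ℤ) (M : ℕ), f1 ∣ D ^ M → S ∈ W r → br (g 0) S = 0 →
      br (g 1) S = f1 →
      ∃ (M : ℕ) (r : ℤ) (S : Pol k 2), S ∈ W r ∧ br (g 0) S = 0 ∧ br (g 1) S = D ^ M := by
    rintro f1 S r M ⟨t, ht⟩ hS h0 h1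
    have hne : f1 * t ≠ 0 := by rw [← ht]; exact pow_ne_zero _ hD0
    have htK : t ∈ K := (hK.fc f1 t hne (by rw [← ht]; exact K.pow_mem hDK M)).2
    obtain ⟨b, c, _, hc, _⟩ := hfac (M • d) f1 t (by rw [← ht]; exact pow_mem_gr hG hDm M) hne
    refine ⟨M, c + r, t * S, hG.mul _ _ _ _ hc hS, ?_, ?_⟩
    · rw [br_mul, h0, hK.cm _ (hK.gK 0) _ htK, mul_zero, mul_zero, add_zero]
    · rw [br_mul, h1, hK.cm _ (hK.gK 1) _ htK, mul_zero, add_zero, ht, mul_comm]
  -- the main induction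
  have main : ∀ (m : Multiset (Pol k 2)) (f1 S : Pol k 2) (r : ℤ) (M : ℕ),
      (∀ h ∈ m, Prime h ∧ ¬ h ∣ D) → f1 ∣ D ^ M → S ∈ W r → br (g 0) S = 0 →
      br (g 1) S = f1 * m.prod → br (g 1) S ∈ K → br (g 1) S ≠ 0 →
      ∃ (M : ℕ) (r : ℤ) (S : Pol k 2), S ∈ W r ∧ br (g 0) S = 0 ∧ br (g 1) S = D ^ M := by
    intro m
    induction m using Multiset.induction_on with
    | empty =>
      intro f1 S r M _ hf1 hS h0 h1 _ _
      rw [Multiset.prod_zero, mul_one] at h1
      exact fin f1 S r M hf1 hS h0 h1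
    | cons h m ih =>
      intro f1 S r M hm hf1 hS h0 h1 hfK hf0
      obtain ⟨hhp, hhD⟩ := hm h (Multiset.mem_cons_self h m)
      have hfm : br (g 1) S ∈ W (ω 1 + r) := hy.pbr _ _ _ _ (hK.gw 1) hS
      have hfe : br (g 1) S = h * (f1 * m.prod) := by
        rw [h1, Multiset.prod_cons]; ring
      have hhK : h ∈ K := (hK.fc h (f1 * m.prod) (by rw [← hfe]; exact hf0)
        (by rw [← hfe]; exact hfK)).1
      obtain ⟨rh, rc, hhm, _, _⟩ := hfac _ h (f1 * m.prod) (by rw [← hfe]; exact hfm)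
        (by rw [← hfe]; exact hf0)
      have hhf : h ∣ br (g 1) S := ⟨_, hfe⟩
      -- `h` divides all brackets
      have hbr' : ∀ t ∈ Algebra.adjoin k (Set.range g), h ∣ br t S := by
        intro t ht
        induction ht using Algebra.adjoin_induction with
        | mem x hx =>
          obtain ⟨i, rfl⟩ := hx
          by_cases hi0 : i = 0
          · rw [hi0, h0]; exact dvd_zero _
          by_cases hi1 : i = 1
          · rw [hi1]; exact hhf
          have hhi : ¬ h ∣ g i := fun hh => hhD (hh.trans (hgi i hi0 hi1))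
          obtain ⟨a, b, hab⟩ := hK.pl 0 1 i (by simp)
          have h2 : br (g i ^ e i) S = br (C a * g 0 ^ e 0 + C b * g 1 ^ e 1) S := by rw [hab]
          rw [add_br, mul_br, mul_br, C_br, C_br, br_anti (g i ^ e i), br_anti (g 0 ^ e 0),
            br_anti (g 1 ^ e 1), br_pow, br_pow, br_pow, br_anti S (g 0), br_anti S (g 1), h0,
            br_anti S (g i)] at h2
          have h3 : h ∣ ((e i : ℕ) : Pol k 2) * g i ^ (e i - 1) * br (g i) S := by
            obtain ⟨c, hc⟩ := hhf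
            refine ⟨C b * (((e 1 : ℕ) : Pol k 2) * g 1 ^ (e 1 - 1) * c), ?_⟩
            rw [hc] at h2
            linear_combination h2
          rcases hhp.dvd_or_dvd h3 with h4 | h4
          · rcases hhp.dvd_or_dvd h4 with h5 | h5
            · exfalso
              apply hhp.not_isUnit
              have h6 : IsUnit ((e i : ℕ) : Pol k 2) := by
                have h7 : ((e i : ℕ) : Pol k 2) = C ((e i : ℕ) : k) := by simp
                rw [h7]
                have h8 : ((e i : ℕ) : k) ≠ 0 := Nat.cast_ne_zero.2 (hK.ep i).ne'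
                exact (isUnit_iff_ne_zero.2 h8).map C
              exact isUnit_of_dvd_unit h5 h6
            · exact absurd (hhp.dvd_of_dvd_pow h5) hhi
          · exact h4
        | algebraMap c =>
          rw [MvPolynomial.algebraMap_eq, C_br]; exact dvd_zero _
        | add a b _ _ iha ihb => rw [add_br]; exact dvd_add iha ihb
        | mul a b _ _ iha ihb => rw [mul_br]; exact dvd_add (ihb.mul_left _) (iha.mul_left _)
      have hbr : ∀ t ∈ K, h ∣ br t S := fun t ht => hbr' t (hK.gen t ht)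
      obtain ⟨N, c, hcK, hdv⟩ := hSur rh r h S hhp hhK hhm hhD hS hbr
      -- homogeneous component
      have hDS : D ^ N * S ∈ W (N • d + r) := hG.mul _ _ _ _ (pow_mem_gr hG hDm N) hS
      obtain ⟨x, hx⟩ := hdv
      have h5 : cmp hG (D ^ N * S - c) (N • d + r) = D ^ N * S - cmp hG c (N • d + r) := by
        rw [map_sub, cmp_of_mem hG hDS, Finsupp.sub_apply, Finsupp.single_eq_same]
      have h6 := cmp_mul_of_mem hG hhm x (N • d + r - rh)
      rw [sub_add_cancel, mul_comm x h, ← hx, h5] at h6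
      have hcK2 : cmp hG c (N • d + r) ∈ K := hK.gr hG c hcK _
      have hbh : ∀ t ∈ K, br t h = 0 := fun t ht => hK.cm t ht h hhK
      have hDN : ∀ t ∈ K, br t (D ^ N) = 0 := fun t ht => hK.cm t ht _ (K.pow_mem hDK N)
      have h7 : ∀ t ∈ K, h * br t (cmp hG x (N • d + r - rh)) = D ^ N * br t S := by
        intro t ht
        have h8 : br t (cmp hG x (N • d + r - rh) * h) =
            br t (D ^ N * S - cmp hG c (N • d + r)) := by rw [h6]
        rw [br_mul, hbh t ht, mul_zero, zero_add, br_sub, br_mul, hDN t ht, mul_zero, add_zero,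
          hK.cm t ht _ hcK2, sub_zero] at h8
        exact h8
      have h8 : br (g 0) (cmp hG x (N • d + r - rh)) = 0 := by
        have h9 := h7 _ (hK.gK 0)
        rw [h0, mul_zero] at h9
        exact (mul_eq_zero.1 h9).resolve_left hhp.ne_zero
      have h9 : br (g 1) (cmp hG x (N • d + r - rh)) = (D ^ N * f1) * m.prod := by
        have h10 := h7 _ (hK.gK 1)
        rw [hfe] at h10
        apply mul_left_cancel₀ hhp.ne_zero
        rw [h10]; ring
      have h10 : h * br (g 1) (cmp hG x (N • d + r - rh)) ∈ K := by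
        rw [h7 _ (hK.gK 1)]
        exact K.mul_mem (K.pow_mem hDK N) hfK
      have h11 : h * br (g 1) (cmp hG x (N • d + r - rh)) ≠ 0 := by
        rw [h7 _ (hK.gK 1)]
        exact mul_ne_zero (pow_ne_zero _ hD0) hf0
      refine ih (D ^ N * f1) (cmp hG x (N • d + r - rh)) (N • d + r - rh) (N + M)
        (fun t ht => hm t (Multiset.mem_cons_of_mem ht)) ?_ (cmp_mem hG _ _) h8 h9
        (hK.fc _ _ h11 h10).2 (right_ne_zero_of_mul h11)
      rw [pow_add]
      exact mul_dvd_mul_left _ hf1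
  obtain ⟨f1, m, M, h1, h2, h3⟩ := split_bad D (br (g 1) s0) hs0.qs
  have h4 : br (g 0) (br (g 1) s0) = 0 := by
    rw [jac, hcp.pq, zero_br, hs0.ps, br_zero, add_zero]
  exact main m f1 s0 n0 M h3 h2 hs0.hs hs0.ps h1 (hcent _ h4 hs0.qq) hs0.qs

end Pool.Agent.H54.SYA
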