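import Pool.Agent.H19.SYA.TB

/-!
Symplectic torus actions on affine four-space (MP_51eb24_ag): row PSN of the board `sya_modules`.
-/

set_option autoImplicit false

namespace Pool.Agent.H54.SYA

open MvPolynomial Pool.Agent.H2.ST Pool.Agent.H15.TG Pool.Agent.H19.SYA

variable {k : Type} [Field k]

theorem br_pow_zero {m : ℕ} {f g : Pol k m} (h : br f g = 0) (n : ℕ) : br f (g ^ n) = 0 := by
  rw [br_pow, h, mul_zero]

theorem iter_mul {m : ℕ} {f a : Pol k m} (h : br f a = 0) (x : Pol k m) (n : ℕ) :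
    (br f)^[n] (a * x) = a * (br f)^[n] x := by
  induction n with
  | zero => rfl
  | succ n ih => rw [Function.iterate_succ_apply', Function.iterate_succ_apply', ih, br_mul, h,
      mul_zero, add_zero]

theorem nc_of_prime {m : ℕ} {p : Pol k m} (hp : Prime p) : ¬ ∃ c : k, p = C c := by
  rintro ⟨c, hc⟩
  by_cases h0 : c = 0
  · exact hp.ne_zero (by rw [hc, h0, C_0])
  · exact hp.not_isUnit (by rw [hc]; exact (isUnit_iff_ne_zero.2 h0).map C)

theorem pf_PSN (hNIL : Pool.Agent.H2.ST.T_NIL) : Pool.Agent.H19.SYA.T_PSN := by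
  intro k _ _ _ W H y w p q S α β k1 hy hp
  have hSp : br S p = 0 := by rw [br_anti, hp.pS, neg_zero]
  have hqS : br q S = p ^ k1 := by rw [hp.qS, pow_zero, mul_one]
  have hSq : br S q = -(p ^ k1) := by rw [br_anti, hqS]
  have hSS : br S S = 0 := br_self S
  have hSm : S ∈ W (k1 * α - β) := by
    have h := hp.hS
    simpa using h
  have hSH : br S H = (((k1 * α - β : ℤ)) : k) • S := hy.HE _ _ hSm
  have hp0 : p ≠ 0 := hp.pg.ne_zero
  have hLN : LN S := by
    intro F
    obtain ⟨N, P, hP⟩ := hp.ge1 F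
    have hgen : aeval ![p, q, H, S] P ∈ Algebra.adjoin k (Set.range ![p, q, H, S]) := by
      rw [Algebra.adjoin_range_eq_range_aeval]
      exact ⟨P, rfl⟩
    have hD : (⇑(ad S) : Pol k 2 → Pol k 2) = br S := funext (ad_apply S)
    obtain ⟨M, hM⟩ := hNIL k (Pol k 2) (ad S) (Set.range ![p, q, H, S]) (by
      rintro s ⟨i, rfl⟩
      rw [hD]
      fin_cases i
      · exact ⟨1, hSp⟩
      · refine ⟨2, ?_⟩
        change br S (br S q) = 0
        rw [hSq, br_neg, br_pow_zero hSp, neg_zero]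
      · refine ⟨2, ?_⟩
        change br S (br S H) = 0
        rw [hSH, br_smul, hSS, smul_zero]
      · exact ⟨1, hSS⟩) _ hgen
    refine ⟨M, ?_⟩
    rw [hD, ← hP, iter_mul (br_pow_zero hSp N)] at hM
    exact (mul_eq_zero.1 hM).resolve_left (pow_ne_zero _ hp0)
  have hNC : NC S := by
    rintro ⟨c, hc⟩
    rw [hc, br_C] at hqS
    exact pow_ne_zero _ hp0 hqS.symm
  refine ⟨hLN, hNC, ?_⟩
  have h1 := hy.bad α (k1 * α - β) p S hp.hg hSm (nc_of_prime hp.pg) hNC hp.lg hLN hp.pS
  exact (pos_iff_pos_of_mul_pos h1).1 hp.pa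

end Pool.Agent.H54.SYA
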